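import Pool.Agent.Helper81.LT.Comb

/-!
Packet GOOD of MP_c20641_lc: `STEP Λ → GOOD Λ` for a finite lattice `Λ`.
-/

namespace Pool.Agent.Helper14.LT

open Pool.Agent.Helper81.LT

universe u

variable {Λ : Type u} [Lattice Λ] [BoundedOrder Λ]

/-- the set of distances that force `ρ` -/
def XX (S : Sp Λ) (ρ : Setoid S.A) : Set Λ := {x | ∀ c d : S.A, x ≤ S.t c d → ρ c d}

/-- the conclusion of `GOOD` for one equivalence relation -/
def Concl (P T : Sp Λ) (ρ : Setoid T.A) : Prop :=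
  ∃ (s : Λ) (F : Set (P.A → T.A)), (∀ f ∈ F, IsHom P T f) ∧ (∃ e ∈ F, IsIso P T e) ∧
      (∀ f ∈ F, ∀ a b, s ≤ P.t a b → ρ (f a) (f b)) ∧
      (∀ a b, ¬ s ≤ P.t a b → ∃ f ∈ F, ¬ ρ (f a) (f b) ∧ (fun _ => f b) ∈ F)

lemma top_mem_XX {S : Sp Λ} {ρ : Setoid S.A} (h : Resp S ρ) : (⊤ : Λ) ∈ XX S ρ :=
  fun c d hcd => h c d (top_le_iff.1 hcd)

lemma resp_comap {S T : Sp Λ} {ι : S.A → T.A} (hι : IsIso S T ι) {ρ : Setoid T.A}
    (h : Resp T ρ) : Resp S (ρ.comap ι) := by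
  intro a b hab
  rw [Setoid.comap_rel]
  exact h _ _ ((hι a b).trans hab)

lemma XX_sub {S T : Sp Λ} {ι : S.A → T.A} (hι : IsIso S T ι) (ρ : Setoid T.A) :
    XX T ρ ⊆ XX S (ρ.comap ι) := by
  intro x hx c d hcd
  rw [Setoid.comap_rel]
  exact hx _ _ (hcd.trans_eq (hι c d).symm)

lemma iso_comp {S T U : Sp Λ} {f : S.A → T.A} {g : T.A → U.A} (hf : IsIso S T f)
    (hg : IsIso T U g) : IsIso S U (g ∘ f) := by
  intro a b
  simp only [Function.comp]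
  rw [hg, hf]

lemma concl_of_eq [Finite Λ] (P S S' T : Sp Λ) (e : P.A → S.A) (he : IsIso P S e)
    (ι₀ : S.A → S'.A) (hι₀ : IsIso S S' ι₀)
    (hprop : ∀ ρ : Setoid S'.A, Resp S' ρ →
      (∀ a b : P.A, (∀ f, IsHom P S' f → ρ (f a) (f b)) →
        ∀ p q : S.A, P.t a b ≤ S.t p q → ρ (ι₀ p) (ι₀ q)) ∧
      (∀ x y : Λ, (∀ c d : S'.A, x ≤ S'.t c d → ρ c d) → (∀ c d : S'.A, y ≤ S'.t c d → ρ c d) →
        ∀ p q : S.A, x ⊓ y ≤ S.t p q → ρ (ι₀ p) (ι₀ q)))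
    (ι₁ : S'.A → T.A) (hι₁ : IsIso S' T ι₁) (ρ : Setoid T.A) (hρ : Resp T ρ)
    (heq : XX S (ρ.comap (ι₁ ∘ ι₀)) ⊆ XX S' (ρ.comap ι₁)) : Concl P T ρ := by
  classical
  have hρ' : Resp S' (ρ.comap ι₁) := resp_comap hι₁ hρ
  obtain ⟨h1, h2⟩ := hprop (ρ.comap ι₁) hρ'
  set X : Set Λ := XX S' (ρ.comap ι₁) with hX
  have htop : (⊤ : Λ) ∈ X := top_mem_XX hρ'
  have hinf : ∀ x ∈ X, ∀ y ∈ X, x ⊓ y ∈ X := by
    intro x hx y hy
    apply heq
    intro p q hpq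
    have := h2 x y hx hy p q hpq
    rw [Setoid.comap_rel] at this ⊢
    exact this
  have hfin : X.Finite := Set.toFinite X
  set s : Λ := hfin.toFinset.inf id with hs
  have hsX : s ∈ X :=
    Finset.inf_mem X htop hinf _ _ fun i hi => hfin.mem_toFinset.1 hi
  have hsle : ∀ x ∈ X, s ≤ x := fun x hx => Finset.inf_le (f := id) (hfin.mem_toFinset.2 hx)
  refine ⟨s, {f | ∃ g, IsHom P S' g ∧ f = ι₁ ∘ g}, ?_, ?_, ?_, ?_⟩
  · rintro f ⟨g, hg, rfl⟩ a b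
    exact (hg a b).trans_eq (hι₁ _ _).symm
  · refine ⟨ι₁ ∘ (ι₀ ∘ e), ⟨ι₀ ∘ e, fun a b => ?_, rfl⟩, iso_comp (iso_comp he hι₀) hι₁⟩
    exact (iso_comp he hι₀ a b).ge
  · rintro f ⟨g, hg, rfl⟩ a b hab
    have := hsX (g a) (g b) (hab.trans (hg a b))
    rw [Setoid.comap_rel] at this
    exact this
  · intro a b hab
    by_contra hcon
    push Not at hcon
    apply hab
    apply hsle
    apply heq
    intro p q hpq
    rw [Setoid.comap_rel]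
    have := h1 a b (fun f hf => ?_) p q hpq
    · rw [Setoid.comap_rel] at this
      exact this
    · rw [Setoid.comap_rel]
      by_contra hne
      refine hcon (ι₁ ∘ f) ⟨f, hf, rfl⟩ hne ⟨fun _ => f b, fun c d => ?_, rfl⟩
      rw [S'.refl]
      exact le_top

lemma claim [Finite Λ] (h : STEP Λ) (P : Sp Λ) (N : ℕ) :
    ∀ (S : Sp Λ) (e : P.A → S.A), IsIso P S e → ∃ (T : Sp Λ) (ι : S.A → T.A), IsIso S T ι ∧
      ∀ ρ : Setoid T.A, Resp T ρ → Concl P T ρ ∨ N + 1 ≤ (XX S (ρ.comap ι)).ncard := by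
  induction N with
  | zero =>
    intro S e he
    refine ⟨S, id, fun a b => rfl, fun ρ hρ => Or.inr ?_⟩
    rw [zero_add, Nat.one_le_iff_ne_zero]
    intro h0
    rw [Set.ncard_eq_zero (Set.toFinite _)] at h0
    have : (⊤ : Λ) ∈ XX S (ρ.comap id) := top_mem_XX (resp_comap (T := S) (fun a b => rfl) hρ)
    rw [h0] at this
    exact this
  | succ N ih =>
    intro S e he
    obtain ⟨S', ι₀, hι₀, hprop⟩ := h S P
    obtain ⟨T, ι₁, hι₁, hT⟩ := ih S' (ι₀ ∘ e) (iso_comp he hι₀)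
    refine ⟨T, ι₁ ∘ ι₀, iso_comp hι₀ hι₁, fun ρ hρ => ?_⟩
    rcases hT ρ hρ with hc | hc
    · exact Or.inl hc
    · have hsub : XX S' (ρ.comap ι₁) ⊆ XX S (ρ.comap (ι₁ ∘ ι₀)) := by
        have := XX_sub hι₀ (ρ.comap ι₁)
        intro x hx c d hcd
        have h3 := this hx c d hcd
        rw [Setoid.comap_rel, Setoid.comap_rel] at h3
        rw [Setoid.comap_rel]
        exact h3
      by_cases heq : XX S (ρ.comap (ι₁ ∘ ι₀)) ⊆ XX S' (ρ.comap ι₁)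
      · exact Or.inl (concl_of_eq P S S' T e he ι₀ hι₀ hprop ι₁ hι₁ ρ hρ heq)
      · right
        have := Set.ncard_lt_ncard ⟨hsub, heq⟩ (Set.toFinite _)
        omega

theorem good (Λ : Type u) [Lattice Λ] [BoundedOrder Λ] [Finite Λ] (h : STEP Λ) : GOOD Λ := by
  intro P
  obtain ⟨T, ι, _, hT⟩ := claim h P (Nat.card Λ) P id fun a b => rfl
  refine ⟨T, fun ρ hρ => ?_⟩
  rcases hT ρ hρ with hc | hc
  · exact hc
  · exfalso
    have h1 : (XX P (ρ.comap ι)).ncard ≤ Nat.card Λ := by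
      rw [← Set.ncard_univ]
      exact Set.ncard_le_ncard (Set.subset_univ _) (Set.toFinite _)
    omega

end Pool.Agent.Helper14.LT
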