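import Pool.Agent.Helper81.LT.Mod

/-!
MP_c20641_lc, packet RS: the least element of a ball of a definable ultrametric.
-/

namespace Pool.Agent.Helper14.LT

open FirstOrder Language Pool.Agent.Helper81.LT

attribute [local instance] stdStr

theorem rs (hO : OVER) : RS := by
  intro Λ _ _ M _ _ _ _ t ht s
  have hd : ∀ u, Dfn (fun v : Unit → M => s ≤ t u (v ())) := fun u =>
    Dfn.app₂ (R := fun x y => s ≤ t x y) (ht.dfn s) (Tm.par u) (Tm.var ())
  have hex := fun u => (hO M).1 (fun w => s ≤ t u w) (hd u) ⟨u, by rw [ht.refl]; exact le_top⟩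
  choose r hr hmin using hex
  have huniq : ∀ u w, s ≤ t u w → (∀ z, z < w → ¬ s ≤ t u z) → r u = w := by
    intro u w h1 h2
    rcases lt_trichotomy (r u) w with h | h | h
    · exact absurd (hr u) (h2 _ h)
    · exact h
    · exact absurd h1 (hmin u w h)
  refine ⟨r, ?_, hr, ?_⟩
  · have h1 : Dfn (fun v : Fin 2 → M => s ≤ t (v 0) (v 1)) := ht.dfn s
    have h2 : Dfn (fun v : Fin 2 → M => ∀ z : M, z < v 1 → ¬ s ≤ t (v 0) z) :=
      Dfn.ball (P := fun v z => ¬ s ≤ t (v 0) z) (f := fun v => v 1) (Tm.var 1)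
        (Dfn.app₂ (R := fun x y => s ≤ t x y) (ht.dfn s) (Tm.var (Sum.inl 0))
          (Tm.var (Sum.inr ()))).not
    refine (h1.and h2).congr fun v => ?_
    constructor
    · rintro ⟨h3, h4⟩
      exact huniq _ _ h3 h4
    · intro h
      rw [← h]
      exact ⟨hr _, fun z hz => hmin _ z hz⟩
  · intro u v huv
    refine huniq u (r v) ?_ ?_
    · exact le_trans (le_inf huv (hr v)) (ht.tri u v (r v))
    · intro z hz hsz
      refine hmin v z hz ?_
      refine le_trans (le_inf ?_ hsz) (ht.tri v u z)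
      rw [ht.symm]
      exact huv

end Pool.Agent.Helper14.LT
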